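import Pool.Agent.Lib_helper90.FS.MT
import Pool.Agent.Lib_helper49.FS.EM

set_option autoImplicit false

/-! # MP_c98c8e_al, block RO: from nice factors to factors of rank one -/

namespace Pool.Agent.H90.FS

universe u

/-- the product of a nonempty reduced word is not trivial -/
theorem RO_ne_one {ι : Type} {M : ι → Type u} [∀ i, Group (M i)] {i j : ι}
    (w : Monoid.CoprodI.NeWord M i j) : w.prod ≠ 1 := by
  classical
  intro h
  have h1 : w.toWord.prod = (Monoid.CoprodI.Word.empty : Monoid.CoprodI.Word M).prod := by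
    rw [Monoid.CoprodI.Word.prod_empty]
    exact h
  have h2 : w.toWord = (Monoid.CoprodI.Word.empty : Monoid.CoprodI.Word M) :=
    (Monoid.CoprodI.Word.equiv (M := M)).symm.injective h1
  have h3 : w.toWord.toList = [] := by
    rw [h2]
    rfl
  exact Monoid.CoprodI.NeWord.toList_ne_nil w h3

/-- an element which is not trivial is the product of a nonempty reduced word -/
theorem RO_ex {ι : Type} {M : ι → Type u} [∀ i, Group (M i)] (x : Monoid.CoprodI M) (hx : x ≠ 1) :
    ∃ (i j : ι) (w : Monoid.CoprodI.NeWord M i j), w.prod = x := by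
  classical
  obtain ⟨w, hw⟩ : ∃ w : Monoid.CoprodI.Word M, w.prod = x :=
    ⟨Monoid.CoprodI.Word.equiv x, Monoid.CoprodI.Word.equiv.symm_apply_apply x⟩
  have hne : w ≠ Monoid.CoprodI.Word.empty := by
    rintro rfl
    rw [Monoid.CoprodI.Word.prod_empty] at hw
    exact hx hw.symm
  obtain ⟨i, j, w', hw'⟩ := Monoid.CoprodI.NeWord.of_word w hne
  refine ⟨i, j, w', ?_⟩
  rw [← hw, ← hw']
  rfl

/-- the image of a reduced word under injective homomorphisms of the factors -/
theorem RO_word {ι : Type} {M N : ι → Type u} [∀ i, Group (M i)] [∀ i, Group (N i)]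
    (j : ∀ i, M i →* N i) (hj : ∀ i, Function.Injective (j i)) {k l : ι}
    (w : Monoid.CoprodI.NeWord M k l) :
    ∃ w' : Monoid.CoprodI.NeWord N k l, w'.prod =
      Monoid.CoprodI.lift (fun i => (Monoid.CoprodI.of (M := N) (i := i)).comp (j i)) w.prod := by
  induction w with
  | singleton x hx =>
    refine ⟨.singleton (j _ x) (fun h => hx (hj _ (by rw [h, map_one]))), ?_⟩
    rw [Monoid.CoprodI.NeWord.prod_singleton, Monoid.CoprodI.NeWord.prod_singleton,
      Monoid.CoprodI.lift_of]
    rfl
  | append w1 hne w2 ih1 ih2 =>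
    obtain ⟨w1', h1⟩ := ih1
    obtain ⟨w2', h2⟩ := ih2
    refine ⟨.append w1' hne w2', ?_⟩
    rw [Monoid.CoprodI.NeWord.append_prod, Monoid.CoprodI.NeWord.append_prod, h1, h2, map_mul]

theorem RO_inj {ι : Type} {M N : ι → Type u} [∀ i, Group (M i)] [∀ i, Group (N i)]
    (j : ∀ i, M i →* N i) (hj : ∀ i, Function.Injective (j i)) (x : Monoid.CoprodI M)
    (hx : Monoid.CoprodI.lift (fun i => (Monoid.CoprodI.of (M := N) (i := i)).comp (j i)) x = 1) :
    x = 1 := by
  by_contra hne
  obtain ⟨i, k, w, rfl⟩ := RO_ex x hne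
  obtain ⟨w', hw'⟩ := RO_word j hj w
  exact RO_ne_one w' (hw'.trans hx)

/-- BLOCK RO. From `main_nice` and `embed`. -/
theorem main_rankOne {ι : Type} [Fintype ι] [DecidableEq ι] {A : ι → Type u} [∀ i, Group (A i)]
    (hA : ∀ i, RankOne (A i)) {m : ℕ} (r : Fin m → Monoid.CoprodI A) :
    ∃ S : Finset ι, Fintype.card ι ≤ S.card + m ∧
      ∀ x : Monoid.CoprodI fun i : S => A i, Monoid.CoprodI.lift (M := fun i : S => A i)
        (fun i => Monoid.CoprodI.of (i := (i : ι))) x ∈ Subgroup.normalClosure (Set.range r) →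
        x = 1 := by
  have h1 : ∀ i, ∃ (V : Type u) (_ : Group V) (j : A i →* V) (τ' : V → ℚ),
      Function.Injective j ∧ Nice τ' := fun i => by
    obtain ⟨τ, hτ⟩ := hA i
    exact embed τ hτ
  choose V hV j τ' hj hN using h1
  obtain ⟨J, hJ⟩ : ∃ J : Monoid.CoprodI A →* Monoid.CoprodI V,
      J = Monoid.CoprodI.lift (fun i => (Monoid.CoprodI.of (M := V) (i := i)).comp (j i)) := ⟨_, rfl⟩
  obtain ⟨S, hS, hS'⟩ := main_nice τ' hN (fun l => J (r l))
  refine ⟨S, hS, fun x hx => ?_⟩
  refine RO_inj (M := fun i : S => A i) (N := fun i : S => V i) (fun i => j i) (fun i => hj i) x ?_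
  apply hS'
  have h2 : Monoid.CoprodI.lift (M := fun i : S => V i)
      (fun i => Monoid.CoprodI.of (i := (i : ι))) (Monoid.CoprodI.lift (M := fun i : S => A i)
        (fun i => (Monoid.CoprodI.of (M := fun i : S => V i) (i := i)).comp (j i)) x) =
      J (Monoid.CoprodI.lift (M := fun i : S => A i)
        (fun i => Monoid.CoprodI.of (i := (i : ι))) x) := by
    have h3 : (Monoid.CoprodI.lift (M := fun i : S => V i)
      (fun i => Monoid.CoprodI.of (i := (i : ι)))).comp (Monoid.CoprodI.lift (M := fun i : S => A i)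
        (fun i => (Monoid.CoprodI.of (M := fun i : S => V i) (i := i)).comp (j i))) =
      J.comp (Monoid.CoprodI.lift (M := fun i : S => A i)
        (fun i => Monoid.CoprodI.of (i := (i : ι)))) := by
      apply Monoid.CoprodI.ext_hom
      intro i
      ext a
      simp only [MonoidHom.comp_apply, Monoid.CoprodI.lift_of, hJ]
    exact DFunLike.congr_fun h3 x
  rw [h2]
  have h4 : Subgroup.normalClosure (Set.range r) ≤
      (Subgroup.normalClosure (Set.range fun l => J (r l))).comap J := by
    apply Subgroup.normalClosure_le_normal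
    rintro _ ⟨l, rfl⟩
    exact Subgroup.subset_normalClosure ⟨l, rfl⟩
  exact h4 hx

end Pool.Agent.H90.FS
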